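import Pool.Agent.helper49.OF.K3

/-! # Project OF, module EC: two cosets, for functions even under an element of the product -/

namespace Pool.Agent.helper88.OF

open Finset Pool.Agent.helper76.LP

section
open Classical
variable {G ι : Type*} [CommGroup G] [Fintype G]

theorem EC_eps (ε₁ ε₂ : G) (h22 : ε₂ * ε₂ = 1) (f : G → ℤ) (hev : ∀ y, f (ε₁ * ε₂ * y) = f y)
    (x u w : G) : f (ε₁ * u * w * x) = f (u * (ε₂ * w) * x) := by
  rw [← hev (u * (ε₂ * w) * x)]
  congr 1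
  calc ε₁ * u * w * x = (ε₂ * ε₂) * (ε₁ * u * w * x) := by rw [h22, one_mul]
    _ = ε₁ * ε₂ * (u * (ε₂ * w) * x) := by
        simp only [mul_assoc, mul_left_comm]

theorem EC_card (Γ : ι → Subgroup G) (L : List ι) (ε₁ ε₂ : G) (h2 : ε₂ ∈ Pl Γ L)
    (h22 : ε₂ * ε₂ = 1) (f : G → ℤ) (hev : ∀ y, f (ε₁ * ε₂ * y) = f y) (x u : G) :
    (K3_A Γ L f x (ε₁ * u)).card = (K3_A Γ L f x u).card := by
  have hee : (⟨ε₂, h2⟩ : Pl Γ L) * ⟨ε₂, h2⟩ = 1 := Subtype.ext h22
  refine Finset.card_bij' (fun w _ => ⟨ε₂, h2⟩ * w) (fun w _ => ⟨ε₂, h2⟩ * w) ?_ ?_ ?_ ?_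
  · intro w hw
    unfold K3_A at hw ⊢
    rw [Finset.mem_filter] at hw ⊢
    refine ⟨Finset.mem_univ _, ?_⟩
    have := hw.2
    rw [EC_eps ε₁ ε₂ h22 f hev] at this
    exact this
  · intro w hw
    unfold K3_A at hw ⊢
    rw [Finset.mem_filter] at hw ⊢
    refine ⟨Finset.mem_univ _, ?_⟩
    rw [EC_eps ε₁ ε₂ h22 f hev]
    have e : ε₂ * ((⟨ε₂, h2⟩ * w : Pl Γ L) : G) = w := by
      show ε₂ * (ε₂ * (w : G)) = w
      rw [← mul_assoc, h22, one_mul]
    rw [e]
    exact hw.2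
  · intro w _
    show (⟨ε₂, h2⟩ : Pl Γ L) * (⟨ε₂, h2⟩ * w) = w
    rw [← mul_assoc, hee, one_mul]
  · intro w _
    show (⟨ε₂, h2⟩ : Pl Γ L) * (⟨ε₂, h2⟩ * w) = w
    rw [← mul_assoc, hee, one_mul]

end

theorem even_coset {G ι : Type*} [CommGroup G] [Fintype G] (Γ : ι → Subgroup G) (q : ι)
    (L : List ι) (hnd : (q :: L).Nodup) (hI : Indep Γ (q :: L))
    (h4 : ∀ i ∈ L, 4 ≤ Nat.card (Γ i))
    (h5 : ∀ i ∈ L, ∀ j ∈ L, i ≠ j → Nat.card (Γ i) = 4 → 5 ≤ Nat.card (Γ j))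
    (ε₁ ε₂ : G) (h1 : ε₁ ∈ Γ q) (h2 : ε₂ ∈ Pl Γ L) (h11 : ε₁ * ε₁ = 1) (h22 : ε₂ * ε₂ = 1)
    (h10 : ε₁ ≠ 1) (h20 : ε₂ ≠ 1)
    (f : G → ℤ) (hf : MDv Γ (q :: L) f) (hev : ∀ y, f (ε₁ * ε₂ * y) = f y)
    (hq : (10 ≤ Nat.card (Γ q) ∧ ∀ a, Sl Γ (q :: L) f a ≤ 12) ∨
      (6 ≤ Nat.card (Γ q) ∧ ∀ a, Sl Γ (q :: L) f a ≤ 11)) (x : G) (hx : f x ≠ 0) :
    ∃ i ∈ L, Nat.card (Γ i) ≤ 6 ∧ ∀ w ∈ Pl Γ (q :: L),
      ((w ∈ Γ i ∨ ε₁ * ε₂ * w ∈ Γ i) → f (w * x) = f x) ∧
      (w ∉ Γ i → ε₁ * ε₂ * w ∉ Γ i → f (w * x) = 0) := by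
  classical
  have hL : L ≠ [] := by
    rintro rfl
    exact h20 (Subgroup.mem_bot.1 h2)
  have hq12 : ∀ a, Sl Γ (q :: L) f a ≤ 12 := fun a => by
    rcases hq with ⟨-, h⟩ | ⟨-, h⟩
    · exact h a
    · exact (h a).trans (by norm_num)
  have hSj : ∀ j ∈ L, ∀ a, 2 * Sl Γ (q :: L) f a < Nat.card (Γ q) * Nat.card (Γ j) := by
    intro j hj a
    have h4j := h4 j hj
    rcases hq with ⟨h, h'⟩ | ⟨h, h'⟩
    · have := h' a
      nlinarith
    · have := h' a
      nlinarith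
  have hsum := KL_sum Γ q L hI.1 f x
  simp only [K3_card] at hsum
  have hm : ∀ u u' : Γ q, MDv Γ L (fun y => f ((u' : G) * (u : G)⁻¹ * y) - f y) := fun u u' =>
    hf _ ((Γ q).mul_mem u'.2 ((Γ q).inv_mem u.2))
  have hpair : ∀ u u' : Γ q, (∃ w ∈ Pl Γ L, f ((u : G) * w * x) ≠ f ((u' : G) * w * x)) →
      4 ≤ (K3_A Γ L f x u).card + (K3_A Γ L f x u').card := fun u u' h =>
    ((K3_pair Γ L hI.2 h4 f x u u' (hm u u') h).trans
      (Finset.card_le_card (K3_sub Γ L f x u u'))).trans (Finset.card_union_le _ _)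
  -- an empty slice
  obtain ⟨u0, hu0⟩ : ∃ u0 : Γ q, ∀ w ∈ Pl Γ L, f ((u0 : G) * w * x) = 0 := by
    obtain ⟨v, hv⟩ := KL_slices Γ q L hI hL f hf hSj x
    set A : Finset (Γ q) := univ.filter (fun u : Γ q => ∀ w : Pl Γ L, f ((u : G) * w * x) = v w)
      with hA
    obtain ⟨a, ha⟩ : A.Nonempty := by
      rw [← Finset.card_pos]
      omega
    have hAv : ∀ u ∈ A, ∀ w : Pl Γ L, f ((u : G) * w * x) = v w := fun u hu =>
      (Finset.mem_filter.1 hu).2
    by_cases hv0 : ∀ w, v w = 0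
    · exact ⟨a, fun w hw => by
        have := hAv a ha ⟨w, hw⟩
        rw [hv0] at this
        exact this⟩
    exfalso
    push Not at hv0
    obtain ⟨w0, hw0⟩ := hv0
    -- `A` meets `ε₁ A`
    obtain ⟨u, hu, hu'⟩ : ∃ u ∈ A, (⟨ε₁, h1⟩ : Γ q) * u ∈ A := by
      by_contra hcon
      push Not at hcon
      have hd : Disjoint A (A.image (fun u => (⟨ε₁, h1⟩ : Γ q) * u)) := by
        rw [Finset.disjoint_right]
        intro b hb
        obtain ⟨u, hu, rfl⟩ := Finset.mem_image.1 hb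
        exact hcon u hu
      have h6 := Finset.card_union_of_disjoint hd
      rw [Finset.card_image_of_injective _ (mul_right_injective _)] at h6
      have h7 := Finset.card_le_univ (A ∪ A.image (fun u => (⟨ε₁, h1⟩ : Γ q) * u))
      omega
    have hve : ∀ w : Pl Γ L, v w = v (⟨ε₂, h2⟩ * w) := by
      intro w
      have e1 := hAv _ hu' w
      have e2 := hAv _ hu (⟨ε₂, h2⟩ * w)
      rw [← e1, ← e2]
      exact EC_eps ε₁ ε₂ h22 f hev x u w
    set sv := (univ.filter (fun w : Pl Γ L => v w ≠ 0)).card with hsv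
    have hsA : ∀ u ∈ A, (K3_A Γ L f x u).card = sv := by
      intro u hu
      unfold K3_A
      rw [hsv]
      congr 1
      ext w
      rw [Finset.mem_filter, Finset.mem_filter, hAv u hu w]
    have hsv2 : 2 ≤ sv := by
      have hne : w0 ≠ ⟨ε₂, h2⟩ * w0 := by
        intro h
        apply h20
        have h8 : (⟨ε₂, h2⟩ : Pl Γ L) = 1 := by
          have := h.symm
          rwa [mul_eq_right] at this
        exact congrArg Subtype.val h8
      have hsub : ({w0, ⟨ε₂, h2⟩ * w0} : Finset (Pl Γ L)) ⊆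
          univ.filter (fun w : Pl Γ L => v w ≠ 0) := by
        intro w hw
        rw [Finset.mem_filter]
        refine ⟨Finset.mem_univ _, ?_⟩
        rcases Finset.mem_insert.1 hw with rfl | hw
        · exact hw0
        · rw [Finset.mem_singleton.1 hw, ← hve]
          exact hw0
      have := Finset.card_le_card hsub
      rwa [Finset.card_pair hne] at this
    rcases Nat.lt_or_ge sv 3 with hlt | hge
    · -- all slices have at least two points
      have hall : ∀ u ∈ (univ : Finset (Γ q)), 2 ≤ (K3_A Γ L f x u).card := by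
        intro u _
        by_cases huA : u ∈ A
        · rw [hsA u huA]; exact hsv2
        · have h8 : ∃ w ∈ Pl Γ L, f ((a : G) * w * x) ≠ f ((u : G) * w * x) := by
            by_contra hcon
            push Not at hcon
            apply huA
            rw [hA, Finset.mem_filter]
            refine ⟨Finset.mem_univ _, fun w => ?_⟩
            rw [← hcon w w.2]
            exact hAv a ha w
          have h9 := hpair a u h8
          rw [hsA a ha] at h9
          omega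
      have h10' := Finset.card_nsmul_le_sum _ _ 2 hall
      rw [Finset.card_univ, smul_eq_mul] at h10'
      rcases hq with ⟨h, h'⟩ | ⟨h, h'⟩
      · have := h' x
        rw [Nat.card_eq_fintype_card] at h
        omega
      · have := h' x
        rw [Nat.card_eq_fintype_card] at h
        omega
    · have h8 : ∀ u ∈ A, 3 ≤ (K3_A Γ L f x u).card := fun u hu => by
        rw [hsA u hu]; exact hge
      have h9 := Finset.card_nsmul_le_sum _ _ 3 h8
      have h10' : ∑ u ∈ A, (K3_A Γ L f x u).card ≤ ∑ u : Γ q, (K3_A Γ L f x u).card :=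
        Finset.sum_le_sum_of_subset (Finset.subset_univ _)
      rw [smul_eq_mul] at h9
      rcases hq with ⟨h, h'⟩ | ⟨h, h'⟩
      · have := h' x
        rw [Nat.card_eq_fintype_card] at h
        omega
      · have := h' x
        rw [Nat.card_eq_fintype_card] at h
        omega
  -- nonempty slices have at least four points
  have hA0 : (K3_A Γ L f x u0).card = 0 := by
    rw [Finset.card_eq_zero]
    unfold K3_A
    rw [Finset.filter_eq_empty_iff]
    intro w _ h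
    exact h (hu0 w w.2)
  have hfour : ∀ u : Γ q, (∃ w ∈ Pl Γ L, f ((u : G) * w * x) ≠ 0) →
      4 ≤ (K3_A Γ L f x u).card := by
    rintro u ⟨w, hw, h⟩
    have := hpair u u0 ⟨w, hw, by rw [hu0 w hw]; exact h⟩
    omega
  have hε : ∀ u : Γ q, (K3_A Γ L f x ((⟨ε₁, h1⟩ * u : Γ q) : G)).card = (K3_A Γ L f x u).card :=
    fun u => EC_card Γ L ε₁ ε₂ h2 h22 f hev x u
  have hne1 : ∀ u : Γ q, u ≠ ⟨ε₁, h1⟩ * u := by
    intro u h
    apply h10
    have h8 : (⟨ε₁, h1⟩ : Γ q) = 1 := by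
      have := h.symm
      rwa [mul_eq_right] at this
    exact congrArg Subtype.val h8
  -- the slice of `1`
  have hone : 4 ≤ (K3_A Γ L f x ((1 : Γ q) : G)).card := hfour 1 ⟨1, (Pl Γ L).one_mem, by
    simpa using hx⟩
  have hsix : (K3_A Γ L f x ((1 : Γ q) : G)).card ≤ 6 := by
    have h8 : ∑ u ∈ ({1, ⟨ε₁, h1⟩ * 1} : Finset (Γ q)), (K3_A Γ L f x u).card ≤
        ∑ u : Γ q, (K3_A Γ L f x u).card := Finset.sum_le_sum_of_subset (Finset.subset_univ _)
    rw [Finset.sum_pair (hne1 1), hε 1] at h8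
    have := hq12 x
    omega
  -- the other slices are empty
  have hempty : ∀ u : Γ q, u ≠ 1 → u ≠ ⟨ε₁, h1⟩ → ∀ w ∈ Pl Γ L, f ((u : G) * w * x) = 0 := by
    intro u hu1 hu2 w hw
    by_contra h
    have h8 := hfour u ⟨w, hw, h⟩
    have n1 : (⟨ε₁, h1⟩ : Γ q) * 1 ≠ u := by rw [mul_one]; exact hu2.symm
    have n2 : (1 : Γ q) ≠ ⟨ε₁, h1⟩ * u := by
      intro h9
      apply hu2
      have h10' : (⟨ε₁, h1⟩ : Γ q) * ⟨ε₁, h1⟩ = 1 := Subtype.ext h11
      calc u = (⟨ε₁, h1⟩ * ⟨ε₁, h1⟩) * u := by rw [h10', one_mul]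
        _ = ⟨ε₁, h1⟩ * (⟨ε₁, h1⟩ * u) := mul_assoc _ _ _
        _ = _ := by rw [← h9, mul_one]
    have n3 : (⟨ε₁, h1⟩ : Γ q) * 1 ≠ ⟨ε₁, h1⟩ * u := fun h9 => hu1 (mul_left_cancel h9).symm
    have h9 : ∑ u ∈ ({1, ⟨ε₁, h1⟩ * 1, u, ⟨ε₁, h1⟩ * u} : Finset (Γ q)), (K3_A Γ L f x u).card ≤
        ∑ u : Γ q, (K3_A Γ L f x u).card := Finset.sum_le_sum_of_subset (Finset.subset_univ _)
    rw [Finset.sum_insert (by
        simp only [Finset.mem_insert, Finset.mem_singleton, not_or]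
        exact ⟨hne1 1, Ne.symm hu1, n2⟩),
      Finset.sum_insert (by
        simp only [Finset.mem_insert, Finset.mem_singleton, not_or]
        exact ⟨n1, n3⟩), Finset.sum_pair (hne1 u), hε 1, hε u] at h9
    have := hq12 x
    omega
  -- single coset for the slice of `1`
  set g : G → ℤ := fun y => - (f ((u0 : G) * y) - f y) with hg
  have hgm : MDv Γ L g := KL_neg Γ L _ (hf _ u0.2)
  have hgx : ∀ w ∈ Pl Γ L, g (w * x) = f (w * x) := by
    intro w hw
    show - (f ((u0 : G) * (w * x)) - f (w * x)) = f (w * x)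
    rw [← mul_assoc, hu0 w hw]
    ring
  have hSg : Sl Γ L g x ≤ 6 := by
    refine le_trans ?_ hsix
    have h8 := K3_card Γ L f x ((1 : Γ q) : G)
    rw [← h8]
    unfold Sl
    refine Nat.card_le_card_of_injective
      (fun y : {y : G // y * x⁻¹ ∈ Pl Γ L ∧ g y ≠ 0} => (⟨⟨y.1 * x⁻¹, y.2.1⟩, by
        have h9 := hgx _ y.2.1
        rw [inv_mul_cancel_right] at h9
        show f (((1 : Γ q) : G) * (y.1 * x⁻¹) * x) ≠ 0
        rw [Subgroup.coe_one, one_mul, inv_mul_cancel_right, ← h9]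
        exact y.2.2⟩ : {w : Pl Γ L // f (((1 : Γ q) : G) * w * x) ≠ 0})) ?_
    intro y z hyz
    have h9 : y.1 * x⁻¹ = z.1 * x⁻¹ := congrArg Subtype.val (congrArg Subtype.val hyz)
    exact Subtype.ext (mul_right_cancel h9)
  have hgx1 : g x = f x := by
    have := hgx 1 (Pl Γ L).one_mem
    rwa [one_mul] at this
  obtain ⟨i, hi, hi6, hiw⟩ := single_coset Γ L hnd.of_cons hI.2 h4 h5 g hgm x
    (by rw [hgx1]; exact hx) hSg
  have hle := K3_le_Pl Γ L i hi
  have hiw' : ∀ w ∈ Pl Γ L, (w ∈ Γ i → f (w * x) = f x) ∧ (w ∉ Γ i → f (w * x) = 0) := by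
    intro w hw
    have := hiw w hw
    rwa [hgx w hw, hgx1] at this
  have hdis : ∀ u w : G, u ∈ Γ q → w ∈ Pl Γ L → u * w ∈ Pl Γ L → u = 1 := by
    intro u w hu hw huw
    have h8 : u ∈ Pl Γ L := by
      have := (Pl Γ L).mul_mem huw ((Pl Γ L).inv_mem hw)
      rwa [mul_inv_cancel_right] at this
    exact Subgroup.disjoint_def.1 hI.1 hu h8
  refine ⟨i, hi, hi6, fun w hw => ?_⟩
  obtain ⟨u, hu, w', hw', rfl⟩ := Subgroup.mem_sup.1 hw
  have ew : ε₁ * ε₂ * (u * w') = (ε₁ * u) * (ε₂ * w') := by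
    simp only [mul_assoc, mul_left_comm]
  have hew' : ε₂ * w' ∈ Pl Γ L := (Pl Γ L).mul_mem h2 hw'
  by_cases hu1 : u = 1
  · subst hu1
    rw [one_mul]
    refine ⟨fun h => ?_, fun h _ => (hiw' w' hw').2 h⟩
    rcases h with h | h
    · exact (hiw' w' hw').1 h
    · exfalso
      apply h10
      refine hdis ε₁ (ε₂ * w') h1 hew' ?_
      rw [← mul_assoc]
      exact hle h
  · by_cases hu2 : u = ε₁
    · subst hu2
      have e1 : u * w' * x = u * 1 * w' * x := by rw [mul_one]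
      have e2 : f (u * w' * x) = f (ε₂ * w' * x) := by
        rw [e1, EC_eps u ε₂ h22 f hev, one_mul]
      have e3 : u * ε₂ * (u * w') = ε₂ * w' := by
        rw [ew, h11, one_mul]
      rw [e2, e3]
      refine ⟨fun h => ?_, fun _ h => (hiw' _ hew').2 h⟩
      rcases h with h | h
      · exact absurd (hdis u w' hu hw' (hle h)) hu1
      · exact (hiw' _ hew').1 h
    · have h8 := hempty ⟨u, hu⟩ (fun h => hu1 (congrArg Subtype.val h))
        (fun h => hu2 (congrArg Subtype.val h)) w' hw'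
      refine ⟨fun h => ?_, fun _ _ => h8⟩
      exfalso
      rcases h with h | h
      · exact hu1 (hdis u w' hu hw' (hle h))
      · rw [ew] at h
        have h9 := hdis (ε₁ * u) (ε₂ * w') ((Γ q).mul_mem h1 hu) hew' (hle h)
        apply hu2
        calc u = (ε₁ * ε₁) * u := by rw [h11, one_mul]
          _ = ε₁ * (ε₁ * u) := mul_assoc _ _ _
          _ = ε₁ := by rw [h9, mul_one]

end Pool.Agent.helper88.OF
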