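import Pool.Agent.helper88.OF.Defs
import Pool.Agent.helper31.QR.KL
import Pool.Agent.helper46.OF.SC

/-! # Project OF, module K3: majority of three slices -/

namespace Pool.Agent.helper88.OF

open Finset Pool.Agent.helper76.LP

theorem K3_le_Pl {G ι : Type*} [CommGroup G] (Γ : ι → Subgroup G) (L : List ι) (i : ι)
    (hi : i ∈ L) : Γ i ≤ Pl Γ L := by
  induction L with
  | nil => exact absurd hi List.not_mem_nil
  | cons j L ih =>
    rcases List.mem_cons.1 hi with rfl | h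
    · exact le_sup_left
    · exact (ih h).trans le_sup_right

section
open Classical
variable {G ι : Type*} [CommGroup G] [Fintype G]

/-- support of the difference of two slices -/
theorem K3_Sl (Γ : ι → Subgroup G) (L : List ι) (f : G → ℤ) (x u u' w0 : G)
    (hw0 : w0 ∈ Pl Γ L) :
    Sl Γ L (fun y => f (u' * u⁻¹ * y) - f y) (u * w0 * x) ≤
      (univ.filter (fun w : Pl Γ L => f (u' * w * x) - f (u * w * x) ≠ 0)).card := by
  unfold Sl
  have key : ∀ y : {y : G // y * (u * w0 * x)⁻¹ ∈ Pl Γ L ∧ f (u' * u⁻¹ * y) - f y ≠ 0},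
      u⁻¹ * y.1 * x⁻¹ ∈ Pl Γ L := by
    rintro ⟨y, hy1, hy2⟩
    have h1 := (Pl Γ L).mul_mem hy1 hw0
    have h2 : y * (u * w0 * x)⁻¹ * w0 = u⁻¹ * y * x⁻¹ := by
      rw [mul_inv, mul_inv]
      calc y * (u⁻¹ * w0⁻¹ * x⁻¹) * w0 = u⁻¹ * y * x⁻¹ * (w0⁻¹ * w0) := by
            simp only [mul_assoc, mul_comm, mul_left_comm]
        _ = _ := by rw [inv_mul_cancel, mul_one]
    rw [h2] at h1
    exact h1
  have e1 : ∀ y : G, u * (u⁻¹ * y * x⁻¹) * x = y := by intro y; group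
  have e2 : ∀ y : G, u' * (u⁻¹ * y * x⁻¹) * x = u' * u⁻¹ * y := by intro y; group
  have h3 : (univ.filter (fun w : Pl Γ L => f (u' * w * x) - f (u * w * x) ≠ 0)).card =
      Nat.card {w : Pl Γ L // f (u' * w * x) - f (u * w * x) ≠ 0} := by
    rw [Nat.card_eq_fintype_card, Fintype.card_subtype]
  rw [h3]
  refine Nat.card_le_card_of_injective
    (fun y => (⟨⟨u⁻¹ * y.1 * x⁻¹, key y⟩, by
        show f (u' * (u⁻¹ * y.1 * x⁻¹) * x) - f (u * (u⁻¹ * y.1 * x⁻¹) * x) ≠ 0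
        rw [e1, e2]; exact y.2.2⟩ : {w : Pl Γ L // f (u' * w * x) - f (u * w * x) ≠ 0})) ?_
  intro y z hyz
  have h4 : u⁻¹ * y.1 * x⁻¹ = u⁻¹ * z.1 * x⁻¹ :=
    congrArg Subtype.val (congrArg Subtype.val hyz)
  exact Subtype.ext (mul_left_cancel (mul_right_cancel h4))

/-- the support of a slice -/
noncomputable def K3_A (Γ : ι → Subgroup G) (L : List ι) (f : G → ℤ) (x u : G) :
    Finset (Pl Γ L) := univ.filter (fun w : Pl Γ L => f (u * w * x) ≠ 0)

theorem K3_card (Γ : ι → Subgroup G) (L : List ι) (f : G → ℤ) (x u : G) :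
    Nat.card {w : Pl Γ L // f (u * w * x) ≠ 0} = (K3_A Γ L f x u).card := by
  unfold K3_A
  rw [Nat.card_eq_fintype_card, Fintype.card_subtype]

theorem K3_sub (Γ : ι → Subgroup G) (L : List ι) (f : G → ℤ) (x u u' : G) :
    (univ.filter (fun w : Pl Γ L => f (u' * w * x) - f (u * w * x) ≠ 0)) ⊆
      K3_A Γ L f x u ∪ K3_A Γ L f x u' := by
  intro w hw
  unfold K3_A
  rw [Finset.mem_filter] at hw
  rw [Finset.mem_union, Finset.mem_filter, Finset.mem_filter]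
  by_contra h
  push Not at h
  apply hw.2
  rw [h.1 (Finset.mem_univ _), h.2 (Finset.mem_univ _), sub_zero]

/-- different slices have at least four points together; if exactly four then they are disjoint -/
theorem K3_pair (Γ : ι → Subgroup G) (L : List ι) (hI : Indep Γ L)
    (h4 : ∀ j ∈ L, 4 ≤ Nat.card (Γ j)) (f : G → ℤ) (x u u' : G)
    (hm : MDv Γ L (fun y => f (u' * u⁻¹ * y) - f y))
    (hne : ∃ w ∈ Pl Γ L, f (u * w * x) ≠ f (u' * w * x)) :
    4 ≤ (univ.filter (fun w : Pl Γ L => f (u' * w * x) - f (u * w * x) ≠ 0)).card := by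
  obtain ⟨w0, hw0, h0⟩ := hne
  obtain ⟨k, hk, hk2⟩ := min_support Γ L hI _ hm (u * w0 * x) (by
    have e : u' * u⁻¹ * (u * w0 * x) = u' * w0 * x := by group
    show f (u' * u⁻¹ * (u * w0 * x)) - f (u * w0 * x) ≠ 0
    rw [e]
    exact sub_ne_zero.2 h0.symm)
  exact ((h4 k hk).trans hk2).trans (K3_Sl Γ L f x u u' w0 hw0)

/-- the difference of two slices of two points each -/
theorem K3_diff (Γ : ι → Subgroup G) (L : List ι) (hnd : L.Nodup) (hI : Indep Γ L)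
    (h4 : ∀ j ∈ L, 4 ≤ Nat.card (Γ j))
    (h5 : ∀ j ∈ L, ∀ k ∈ L, j ≠ k → Nat.card (Γ j) = 4 → 5 ≤ Nat.card (Γ k))
    (f : G → ℤ) (x u u' : G) (hm : MDv Γ L (fun y => f (u' * u⁻¹ * y) - f y))
    (hne : ∃ w ∈ Pl Γ L, f (u * w * x) ≠ f (u' * w * x))
    (hc : (K3_A Γ L f x u).card + (K3_A Γ L f x u').card = 4) (w1 : G) (hw1 : w1 ∈ Pl Γ L)
    (h1 : f (u * w1 * x) ≠ 0) :
    ∃ k ∈ L, Nat.card (Γ k) = 4 ∧ ∀ w ∈ Pl Γ L,
      (w ∈ Γ k → f (u' * (w * w1) * x) - f (u * (w * w1) * x) = - f (u * w1 * x)) ∧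
      (w ∉ Γ k → f (u' * (w * w1) * x) - f (u * (w * w1) * x) = 0) := by
  have hp := K3_pair Γ L hI h4 f x u u' hm hne
  have hD := Finset.card_le_card (K3_sub Γ L f x u u')
  have hU := Finset.card_union_le (K3_A Γ L f x u) (K3_A Γ L f x u')
  have hdisj : Disjoint (K3_A Γ L f x u) (K3_A Γ L f x u') := by
    rw [Finset.disjoint_iff_inter_eq_empty, ← Finset.card_eq_zero]
    have := Finset.card_union_add_card_inter (K3_A Γ L f x u) (K3_A Γ L f x u')
    omega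
  have h0 : f (u' * w1 * x) = 0 := by
    by_contra h
    have m1 : (⟨w1, hw1⟩ : Pl Γ L) ∈ K3_A Γ L f x u := Finset.mem_filter.2 ⟨Finset.mem_univ _, h1⟩
    have m2 : (⟨w1, hw1⟩ : Pl Γ L) ∈ K3_A Γ L f x u' := Finset.mem_filter.2 ⟨Finset.mem_univ _, h⟩
    exact Finset.disjoint_left.1 hdisj m1 m2
  have e : ∀ w : G, u' * u⁻¹ * (w * (u * w1 * x)) = u' * (w * w1) * x := by
    intro w
    calc u' * u⁻¹ * (w * (u * w1 * x)) = (u⁻¹ * u) * (u' * (w * w1) * x) := by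
          simp only [mul_assoc, mul_comm, mul_left_comm]
      _ = _ := by rw [inv_mul_cancel, one_mul]
  have e' : ∀ w : G, w * (u * w1 * x) = u * (w * w1) * x := by
    intro w
    simp only [mul_assoc, mul_comm, mul_left_comm]
  have hy : f (u' * u⁻¹ * (u * w1 * x)) - f (u * w1 * x) = - f (u * w1 * x) := by
    have := e 1
    rw [one_mul, one_mul] at this
    rw [this, h0, zero_sub]
  obtain ⟨k, hk, -, hw⟩ := single_coset Γ L hnd hI h4 h5 _ hm (u * w1 * x) (by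
    show f (u' * u⁻¹ * (u * w1 * x)) - f (u * w1 * x) ≠ 0
    rw [hy]
    exact neg_ne_zero.2 h1) (by
      refine (K3_Sl Γ L f x u u' w1 hw1).trans ?_
      omega)
  have hw' : ∀ w ∈ Pl Γ L,
      (w ∈ Γ k → f (u' * (w * w1) * x) - f (u * (w * w1) * x) = - f (u * w1 * x)) ∧
      (w ∉ Γ k → f (u' * (w * w1) * x) - f (u * (w * w1) * x) = 0) := by
    intro w hwP
    obtain ⟨a, b⟩ := hw w hwP
    refine ⟨fun h => ?_, fun h => ?_⟩
    · have := a h
      rw [hy, e, e'] at this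
      exact this
    · have := b h
      rw [e, e'] at this
      exact this
  refine ⟨k, hk, le_antisymm ?_ (h4 k hk), hw'⟩
  -- `Γ k` injects in the support of the difference
  have hle := K3_le_Pl Γ L k hk
  have h6 : Nat.card (Γ k) ≤
      (univ.filter (fun w : Pl Γ L => f (u' * w * x) - f (u * w * x) ≠ 0)).card := by
    have h3 : (univ.filter (fun w : Pl Γ L => f (u' * w * x) - f (u * w * x) ≠ 0)).card =
        Nat.card {w : Pl Γ L // f (u' * w * x) - f (u * w * x) ≠ 0} := by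
      rw [Nat.card_eq_fintype_card, Fintype.card_subtype]
    rw [h3]
    refine Nat.card_le_card_of_injective
      (fun w : Γ k => (⟨⟨w.1 * w1, (Pl Γ L).mul_mem (hle w.2) hw1⟩, by
        show f (u' * (w.1 * w1) * x) - f (u * (w.1 * w1) * x) ≠ 0
        rw [(hw' w.1 (hle w.2)).1 w.2]
        exact neg_ne_zero.2 h1⟩ : {w : Pl Γ L // f (u' * w * x) - f (u * w * x) ≠ 0})) ?_
    intro y z hyz
    have h7 : y.1 * w1 = z.1 * w1 := congrArg Subtype.val (congrArg Subtype.val hyz)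
    exact Subtype.ext (mul_right_cancel h7)
  omega

end

theorem slices_three {G ι : Type*} [CommGroup G] [Fintype G] (Γ : ι → Subgroup G)
    (i : ι) (L : List ι) (hnd : (i :: L).Nodup) (hI : Indep Γ (i :: L))
    (h3 : Nat.card (Γ i) = 3) (h4 : ∀ j ∈ L, 4 ≤ Nat.card (Γ j))
    (h5 : ∀ j ∈ L, ∀ k ∈ L, j ≠ k → Nat.card (Γ j) = 4 → 5 ≤ Nat.card (Γ k))
    (f : G → ℤ) (hf : MDv Γ (i :: L) f) (x : G) (hS : Sl Γ (i :: L) f x ≤ 6) :
    ∃ u₁ u₂ : G, u₁ ∈ Γ i ∧ u₂ ∈ Γ i ∧ u₁ ≠ u₂ ∧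
      ∀ w ∈ Pl Γ L, f (u₁ * w * x) = f (u₂ * w * x) := by
  classical
  by_contra hcon
  push Not at hcon
  have hcon' : ∀ u u' : Γ i, u ≠ u' → ∃ w ∈ Pl Γ L, f ((u : G) * w * x) ≠ f ((u' : G) * w * x) :=
    fun u u' h => hcon u u' u.2 u'.2 (fun h' => h (Subtype.ext h'))
  have hsum := (KL_sum Γ i L hI.1 f x).trans hS
  rw [Nat.card_eq_fintype_card] at h3
  obtain ⟨a, b, c, hab, hac, hbc, huniv⟩ := Finset.card_eq_three.1 (Finset.card_univ.trans h3)
  rw [huniv, Finset.sum_insert (by simp [hab, hac]), Finset.sum_insert (by simp [hbc]),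
    Finset.sum_singleton, K3_card, K3_card, K3_card] at hsum
  have hm : ∀ u u' : Γ i, MDv Γ L (fun y => f ((u' : G) * (u : G)⁻¹ * y) - f y) := fun u u' =>
    hf _ ((Γ i).mul_mem u'.2 ((Γ i).inv_mem u.2))
  have hpair : ∀ u u' : Γ i, u ≠ u' →
      4 ≤ (K3_A Γ L f x u).card + (K3_A Γ L f x u').card := fun u u' h =>
    ((K3_pair Γ L hI.2 h4 f x u u' (hm u u') (hcon' u u' h)).trans
      (Finset.card_le_card (K3_sub Γ L f x u u'))).trans (Finset.card_union_le _ _)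
  have p1 := hpair a b hab
  have p2 := hpair a c hac
  have p3 := hpair b c hbc
  have hApos : 0 < (K3_A Γ L f x a).card := by omega
  obtain ⟨⟨w1, hw1⟩, hw1A⟩ := Finset.card_pos.1 hApos
  have hf1 : f ((a : G) * w1 * x) ≠ 0 := (Finset.mem_filter.1 hw1A).2
  obtain ⟨k, hk, hk4, hkw⟩ := K3_diff Γ L hnd.of_cons hI.2 h4 h5 f x a b (hm a b) (hcon' a b hab)
    (by omega) w1 hw1 hf1
  obtain ⟨k', hk', hk4', hkw'⟩ := K3_diff Γ L hnd.of_cons hI.2 h4 h5 f x a c (hm a c)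
    (hcon' a c hac) (by omega) w1 hw1 hf1
  have hkk : k = k' := by
    by_contra h
    have := h5 k hk k' hk' h hk4
    omega
  subst hkk
  obtain ⟨w, hw, hne⟩ := hcon' b c hbc
  apply hne
  have hww : w * w1⁻¹ ∈ Pl Γ L := (Pl Γ L).mul_mem hw ((Pl Γ L).inv_mem hw1)
  have e : w * w1⁻¹ * w1 = w := by group
  obtain ⟨q1, q2⟩ := hkw _ hww
  obtain ⟨r1, r2⟩ := hkw' _ hww
  rw [e] at q1 q2 r1 r2
  by_cases hmem : w * w1⁻¹ ∈ Γ k
  · have := q1 hmem
    have := r1 hmem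
    omega
  · have := q2 hmem
    have := r2 hmem
    omega

end Pool.Agent.helper88.OF
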