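import Pool.Agent.helper88.OF.Defs
import Pool.Agent.helper31.QR.KL

/-! # Project OF, module SR: `structure_step` from a majority of slices -/

namespace Pool.Agent.helper88.OF

open Finset Pool.Agent.helper76.LP

theorem structure_step_slices {G ι : Type*} [CommGroup G] [Fintype G] (Γ : ι → Subgroup G)
    (i : ι) (L : List ι) (hI : Indep Γ (i :: L)) (f : G → ℤ) (hf : MDv Γ (i :: L) f)
    (hsl : ∀ x, ∃ u₁ u₂ : G, u₁ ∈ Γ i ∧ u₂ ∈ Γ i ∧ u₁ ≠ u₂ ∧
      ∀ w ∈ Pl Γ L, f (u₁ * w * x) = f (u₂ * w * x)) (h3 : Nat.card (Γ i) = 3) :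
    ∃ ρ : G → ℤ, (∀ u ∈ Γ i, ∀ x, ρ (u * x) = ρ x) ∧ MDv Γ L (fun x => f x - ρ x) ∧
      (∀ e : G, (∀ x, f (e * x) = - f x) → ∀ x, ρ (e * x) = - ρ x) ∧
      (∀ a, Sl Γ L (fun x => f x - ρ x) a ≤ Sl Γ (i :: L) f a) ∧
      (univ.filter (fun x => f x - ρ x ≠ 0)).card ≤ (univ.filter (fun x => f x ≠ 0)).card ∧
      (((∑ x, |f x - ρ x| : ℤ) : ℚ) +
        (om (Nat.card (Γ i)) : ℚ) * ((∑ x, |ρ x| : ℤ) : ℚ) / (Nat.card (Γ i) : ℚ)
          ≤ ((∑ x, |f x| : ℤ) : ℚ)) := by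
  classical
  replace hsl : ∀ x : G, ∃ v : Pl Γ L → ℤ, Fintype.card (Γ i) <
      2 * (univ.filter (fun u : Γ i => ∀ w : Pl Γ L, f ((u : G) * w * x) = v w)).card := by
    intro x
    obtain ⟨u₁, u₂, h1, h2, hne, hw⟩ := hsl x
    refine ⟨fun w => f (u₁ * w * x), ?_⟩
    have hsub : ({⟨u₁, h1⟩, ⟨u₂, h2⟩} : Finset (Γ i)) ⊆
        univ.filter (fun u : Γ i => ∀ w : Pl Γ L, f ((u : G) * w * x) = f (u₁ * w * x)) := by
      intro u hu
      rw [Finset.mem_filter]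
      refine ⟨Finset.mem_univ _, fun w => ?_⟩
      rcases Finset.mem_insert.1 hu with rfl | hu
      · rfl
      · rw [Finset.mem_singleton.1 hu]
        exact (hw w w.2).symm
    have hc := Finset.card_le_card hsub
    rw [Finset.card_pair (fun h => hne (congrArg Subtype.val h))] at hc
    have h3' : Fintype.card (Γ i) = 3 := by rw [← Nat.card_eq_fintype_card]; exact h3
    show Fintype.card (Γ i) <
      2 * (univ.filter (fun u : Γ i => ∀ w : Pl Γ L, f ((u : G) * w * x) = f (u₁ * w * x))).card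
    omega
  have hex : ∀ x, ∃ v, KL_maj (Γ i) f x v := by
    intro x
    obtain ⟨v, hv⟩ := hsl x
    refine ⟨v 1, lt_of_lt_of_le hv ?_⟩
    refine Nat.mul_le_mul_left 2 (Finset.card_le_card ?_)
    intro u hu
    rw [Finset.mem_filter] at hu ⊢
    refine ⟨hu.1, ?_⟩
    have := hu.2 1
    simpa using this
  choose ρ hρ using hex
  have hinv : ∀ u ∈ Γ i, ∀ x, ρ (u * x) = ρ x := fun u hu x =>
    KL_maj_unique _ f (u * x) _ _ (hρ (u * x)) (KL_maj_smul _ f x _ u hu (hρ x))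
  have hcard : 0 < Fintype.card (Γ i) := Fintype.card_pos
  refine ⟨ρ, hinv, ?_, ?_, ?_, ?_, ?_⟩
  · -- locality
    apply mdv_local
    intro x
    obtain ⟨v, hv⟩ := hsl x
    obtain ⟨u, hu⟩ : (univ.filter (fun u : Γ i => ∀ w : Pl Γ L, f ((u : G) * w * x) = v w)).Nonempty := by
      rw [← Finset.card_pos]; omega
    rw [Finset.mem_filter] at hu
    refine ⟨fun y => - (f ((u : G) * y) - f y), KL_neg Γ L _ (hf u u.2), ?_⟩
    intro w hw
    have h1 : ρ (w * x) = v ⟨w, hw⟩ := by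
      refine KL_maj_unique _ f (w * x) _ _ (hρ (w * x)) (lt_of_lt_of_le hv ?_)
      refine Nat.mul_le_mul_left 2 (Finset.card_le_card ?_)
      intro u' hu'
      rw [Finset.mem_filter] at hu' ⊢
      refine ⟨hu'.1, ?_⟩
      have := hu'.2 ⟨w, hw⟩
      rw [← mul_assoc]
      exact this
    have h2 := hu.2 ⟨w, hw⟩
    show f (w * x) - ρ (w * x) = - (f ((u : G) * (w * x)) - f (w * x))
    rw [h1, ← h2, mul_assoc]
    ring
  · intro e he x
    exact KL_maj_unique _ f (e * x) _ _ (hρ (e * x)) (KL_maj_neg _ f x _ e he (hρ x))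
  · -- supports in cosets
    intro a
    refine le_trans ?_ (KL_sum Γ i L hI.1 f a)
    rw [← Nat.card_sigma]
    unfold Sl
    have key : ∀ y : {y : G // y * a⁻¹ ∈ Pl Γ L ∧ f y - ρ y ≠ 0},
        ∃ u : Γ i, f ((u : G) * (y.1 * a⁻¹) * a) ≠ 0 := by
      rintro ⟨y, hy1, hy2⟩
      by_contra hcon
      push Not at hcon
      have h0 : ∀ u : Γ i, f ((u : G) * y) = 0 := by
        intro u
        have := hcon u
        rwa [mul_assoc, inv_mul_cancel_right] at this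
      have h1 : ρ y = 0 := by
        refine KL_maj_unique _ f y _ _ (hρ y) ?_
        unfold KL_maj
        rw [Finset.filter_true_of_mem (fun u _ => h0 u), Finset.card_univ]
        omega
      have h2 : f y = 0 := by
        have := h0 1
        simpa using this
      exact hy2 (by rw [h1, h2, sub_zero])
    choose g hg using key
    refine Nat.card_le_card_of_injective
      (fun y => (⟨g y, ⟨y.1 * a⁻¹, y.2.1⟩, hg y⟩ :
        Σ u : Γ i, {w : Pl Γ L // f ((u : G) * w * a) ≠ 0})) ?_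
    intro y z hyz
    simp only [Sigma.mk.injEq] at hyz
    obtain ⟨h1, h2⟩ := hyz
    have h3 : ∀ (u u' : Γ i) (w w' : Pl Γ L) (hw : f ((u : G) * w * a) ≠ 0)
        (hw' : f ((u' : G) * w' * a) ≠ 0), u = u' →
        HEq (⟨w, hw⟩ : {w : Pl Γ L // f ((u : G) * w * a) ≠ 0})
          (⟨w', hw'⟩ : {w : Pl Γ L // f ((u' : G) * w * a) ≠ 0}) → w = w' := by
      rintro u u' w w' hw hw' rfl h
      have := eq_of_heq h
      exact congrArg Subtype.val this
    have h4 := h3 _ _ _ _ _ _ h1 h2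
    have h5 : y.1 * a⁻¹ = z.1 * a⁻¹ := congrArg Subtype.val h4
    exact Subtype.ext (mul_right_cancel h5)
  · -- number of points of the support
    have h1 := KL_orbit (Γ i) (fun x => if f x - ρ x ≠ 0 then 1 else 0)
    have h2 := KL_orbit (Γ i) (fun x => if f x ≠ 0 then 1 else 0)
    have h3 : ∑ x : G, ∑ u : Γ i, (if f ((u : G) * x) - ρ ((u : G) * x) ≠ 0 then 1 else 0)
        ≤ ∑ x : G, ∑ u : Γ i, (if f ((u : G) * x) ≠ 0 then 1 else 0) := by
      refine Finset.sum_le_sum (fun x _ => ?_)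
      rw [← Finset.card_filter, ← Finset.card_filter]
      have h4 := KL_supp (Γ i) f x (ρ x) (hρ x)
      have h5 : (univ.filter (fun u : Γ i => f ((u : G) * x) - ρ ((u : G) * x) ≠ 0))
          = (univ.filter (fun u : Γ i => f ((u : G) * x) - ρ x ≠ 0)) := by
        ext u
        rw [Finset.mem_filter, Finset.mem_filter, hinv u u.2]
      rw [h5]
      exact h4
    rw [h1, h2, ← Finset.card_filter, ← Finset.card_filter, smul_eq_mul, smul_eq_mul] at h3
    exact Nat.le_of_mul_le_mul_left h3 hcard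
  · -- the norm
    have h1 := KL_orbit (Γ i) (fun x => |f x - ρ x|)
    have h2 := KL_orbit (Γ i) (fun x => |f x|)
    have h3 : ∑ x : G, ((∑ u : Γ i, |f ((u : G) * x) - ρ ((u : G) * x)|)
        + (om (Fintype.card (Γ i)) : ℤ) * |ρ x|) ≤ ∑ x : G, ∑ u : Γ i, |f ((u : G) * x)| := by
      refine Finset.sum_le_sum (fun x _ => ?_)
      have h4 := KL_gain (Γ i) f x (ρ x) (hρ x)
      have h5 : ∑ u : Γ i, |f ((u : G) * x) - ρ ((u : G) * x)| =
          ∑ u : Γ i, |f ((u : G) * x) - ρ x| :=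
        Finset.sum_congr rfl (fun u _ => by rw [hinv u u.2])
      rw [h5]
      exact h4
    rw [Finset.sum_add_distrib, h1, h2, ← Finset.mul_sum, nsmul_eq_mul, nsmul_eq_mul] at h3
    have h6 : ((Fintype.card (Γ i) : ℕ) : ℚ) * ((∑ x, |f x - ρ x| : ℤ) : ℚ) +
        (om (Fintype.card (Γ i)) : ℚ) * ((∑ x, |ρ x| : ℤ) : ℚ)
        ≤ ((Fintype.card (Γ i) : ℕ) : ℚ) * ((∑ x, |f x| : ℤ) : ℚ) := by
      exact_mod_cast h3
    rw [Nat.card_eq_fintype_card]
    have h7 : (0 : ℚ) < ((Fintype.card (Γ i) : ℕ) : ℚ) := by exact_mod_cast hcard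
    rw [← sub_nonneg] at h6 ⊢
    have h8 : ((∑ x, |f x| : ℤ) : ℚ) - (((∑ x, |f x - ρ x| : ℤ) : ℚ) +
        (om (Fintype.card (Γ i)) : ℚ) * ((∑ x, |ρ x| : ℤ) : ℚ) / ((Fintype.card (Γ i) : ℕ) : ℚ))
        = (((Fintype.card (Γ i) : ℕ) : ℚ) * ((∑ x, |f x| : ℤ) : ℚ)
          - (((Fintype.card (Γ i) : ℕ) : ℚ) * ((∑ x, |f x - ρ x| : ℤ) : ℚ) +
        (om (Fintype.card (Γ i)) : ℚ) * ((∑ x, |ρ x| : ℤ) : ℚ))) / ((Fintype.card (Γ i) : ℕ) : ℚ) := by
      field_simp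
    rw [h8]
    exact div_nonneg h6 h7.le

end Pool.Agent.helper88.OF
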