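import Pool.Agent.helper49.OF.K3
import Pool.Agent.helper88.OF.F5
import Pool.Agent.helper58.QR.GA
import Pool.Agent.helper54.QR.GB
import Pool.Agent.helper76.LP.Main

/-! # Project OF, module F7: the orbit of `Gam D 7` alone is impossible -/

namespace Pool.Agent.helper88.OF

open Finset Pool.Agent.helper76.LP

open Classical in
/-- the indicator function of `1` -/
noncomputable def F7_d {G : Type*} [Group G] (g : G) : ℤ := if g = 1 then 1 else 0

lemma F7_d_one {G : Type*} [Group G] {g : G} (h : g = 1) : F7_d g = 1 := if_pos h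

lemma F7_d_ne {G : Type*} [Group G] {g : G} (h : g ≠ 1) : F7_d g = 0 := if_neg h

lemma F7_d_nonneg {G : Type*} [Group G] (g : G) : 0 ≤ F7_d g := by
  unfold F7_d; split_ifs <;> norm_num

lemma F7_mem {D p : ℕ} (hp : p ∣ D) (w : (ZMod D)ˣ) :
    w ∈ Gam D p ↔ ZMod.unitsMap (Nat.div_dvd_of_dvd hp) w = 1 := by
  unfold Gam
  rw [dif_pos hp, MonoidHom.mem_ker]

lemma F7_ind_mul {G : Type*} [CommGroup G] (H : Subgroup G) (w g : G) (hw : w ∈ H) :
    ind H (w * g) = ind H g := by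
  unfold ind
  have : w * g ∈ H ↔ g ∈ H := H.mul_mem_cancel_left hw
  by_cases h : g ∈ H
  · rw [if_pos h, if_pos (this.2 h)]
  · rw [if_neg h, if_neg (fun h' => h (this.1 h'))]

lemma F7_orb_mul {D : ℕ} (H : Subgroup (ZMod D)ˣ) (u w g : (ZMod D)ˣ) (hw : w ∈ H) :
    orb H u (w * g) = orb H u g := by
  unfold orb
  have e1 : u * (w * g) = w * (u * g) := mul_left_comm _ _ _
  have e2 : -(w * g) = w * (-g) := by rw [mul_neg]
  have e3 : -(u * (w * g)) = w * (-(u * g)) := by rw [e1, mul_neg]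
  rw [e3, e2, e1, F7_ind_mul H w g hw, F7_ind_mul H w _ hw, F7_ind_mul H w _ hw,
    F7_ind_mul H w _ hw]

lemma F7_orb_neg {D : ℕ} (H : Subgroup (ZMod D)ˣ) (u g : (ZMod D)ˣ) :
    orb H u (-g) = - orb H u g := by
  unfold orb
  rw [mul_neg, neg_neg, neg_neg]
  ring

/-- the function induced on the units modulo `D / p` -/
lemma F7_nu {D p : ℕ} [NeZero D] (hp : p ∣ D) (u x₀ : (ZMod D)ˣ) (z : (ZMod D)ˣ) :
    orb (Gam D p) u (z * x₀⁻¹) =
      F7_d (ZMod.unitsMap (Nat.div_dvd_of_dvd hp) z * (ZMod.unitsMap (Nat.div_dvd_of_dvd hp) x₀)⁻¹)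
      - F7_d (ZMod.unitsMap (Nat.div_dvd_of_dvd hp) u * (ZMod.unitsMap (Nat.div_dvd_of_dvd hp) z *
        (ZMod.unitsMap (Nat.div_dvd_of_dvd hp) x₀)⁻¹))
      - F7_d (-(ZMod.unitsMap (Nat.div_dvd_of_dvd hp) z *
        (ZMod.unitsMap (Nat.div_dvd_of_dvd hp) x₀)⁻¹))
      + F7_d (-(ZMod.unitsMap (Nat.div_dvd_of_dvd hp) u *
        (ZMod.unitsMap (Nat.div_dvd_of_dvd hp) z *
        (ZMod.unitsMap (Nat.div_dvd_of_dvd hp) x₀)⁻¹))) := by
  have hneg : ∀ w : (ZMod D)ˣ, ZMod.unitsMap (Nat.div_dvd_of_dvd hp) (-w) =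
      - ZMod.unitsMap (Nat.div_dvd_of_dvd hp) w := by
    intro w
    apply Units.ext
    simp [ZMod.unitsMap_def]
  have hi : ∀ w : (ZMod D)ˣ, ind (Gam D p) w =
      F7_d (ZMod.unitsMap (Nat.div_dvd_of_dvd hp) w) := by
    intro w
    unfold ind F7_d
    by_cases h : w ∈ Gam D p
    · rw [if_pos h, if_pos ((F7_mem hp w).1 h)]
    · rw [if_neg h, if_neg (fun h' => h ((F7_mem hp w).2 h'))]
  unfold orb
  rw [hi, hi, hi, hi, hneg, hneg, map_mul, map_mul, map_mul, map_inv]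

/-- an element which is `1` modulo `3` and modulo `e / 3` is `1` -/
lemma F7_crt {e : ℕ} [NeZero e] (h3 : 3 ∣ e) (h9 : ¬ 9 ∣ e) (a : (ZMod e)ˣ)
    (h1 : ZMod.unitsMap h3 a = 1) (h2 : ZMod.unitsMap (Nat.div_dvd_of_dvd h3) a = 1) : a = 1 := by
  obtain ⟨k, hk⟩ := h3
  have hk3 : e / 3 = k := by rw [hk]; exact Nat.mul_div_cancel_left _ (by norm_num)
  have hcop : Nat.Coprime 3 k := by
    rw [Nat.Prime.coprime_iff_not_dvd Nat.prime_three]
    rintro ⟨j, rfl⟩
    exact h9 ⟨j, by rw [hk]; ring⟩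
  have e1 : ((a : ZMod e).val : ZMod 3) = ((1 : ℕ) : ZMod 3) := by
    have := congrArg Units.val h1
    rw [ZMod.unitsMap_def] at this
    simpa using this
  have e2 : ((a : ZMod e).val : ZMod (e / 3)) = ((1 : ℕ) : ZMod (e / 3)) := by
    have := congrArg Units.val h2
    rw [ZMod.unitsMap_def] at this
    simpa using this
  rw [ZMod.natCast_eq_natCast_iff] at e1 e2
  rw [hk3] at e2
  have e3 := (Nat.modEq_and_modEq_iff_modEq_mul hcop).1 ⟨e1, e2⟩
  rw [← hk, ← ZMod.natCast_eq_natCast_iff] at e3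
  apply Units.ext
  rw [ZMod.natCast_zmod_val] at e3
  simpa using e3

theorem full7 (m : ℕ) [NeZero m] (h2 : Odd m) (u : (ZMod m)ˣ) (hu : IsTw m u) (F : ZMod m → ℤ)
    (hodd : ∀ x, F (-x) = - F x) (hT : TateF F) (D : ℕ) [NeZero D] (hD : D ∣ m) (h3 : 3 ∣ D)
    (h9 : ¬ 9 ∣ D) (h7 : 7 ∣ D) (h49 : ¬ 49 ∣ D) (h21 : D ≠ 21)
    (hsupp : ∀ x, F x ≠ 0 → addOrderOf x = D) (x₀ : (ZMod D)ˣ)
    (hP : ∀ z : (ZMod D)ˣ, F (emb D m (z : ZMod D)) - F ((u : ZMod m) * emb D m (z : ZMod D)) =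
      orb (Gam D 7) (ZMod.unitsMap hD u) (z * x₀⁻¹)) : False := by
  classical
  obtain ⟨huu, -, hu3⟩ := hu
  have hD0 : D ≠ 0 := NeZero.ne D
  set e := D / 7 with hedef
  have he : e * 7 = D := Nat.div_mul_cancel h7
  have he0 : e ≠ 0 := by rintro h; rw [h] at he; omega
  have : NeZero e := ⟨he0⟩
  have heD : e ∣ D := Nat.div_dvd_of_dvd h7
  have hem : e ∣ m := heD.trans hD
  have h3e : 3 ∣ e := by
    rw [← he] at h3
    exact (Nat.Coprime.dvd_mul_right (by norm_num)).1 h3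
  have h9e : ¬ 9 ∣ e := fun h => h9 (h.trans heD)
  have h7e : ¬ 7 ∣ e := by
    rintro ⟨k, hk⟩
    exact h49 ⟨k, by rw [← he, hk]; ring⟩
  have hodde : Odd e := h2.of_dvd_nat hem
  have he3 : e ≠ 3 := by
    intro h
    rw [h] at he
    exact h21 he.symm
  set ue : (ZMod e)ˣ := ZMod.unitsMap hem u with hue
  have hueD : ZMod.unitsMap heD (ZMod.unitsMap hD u) = ue := F5_um_comp heD hD u
  obtain ⟨hue3, hue1⟩ := hu3 e hem h3e h9e
  have hueue : ue * ue = 1 := by rw [hue, ← map_mul, huu, map_one]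
  -- `P`
  have hPodd := B0_PF_odd u F hodd
  have hPT := B0_PF_tate u F hT
  have hPsupp : ∀ x, PF u F x ≠ 0 → addOrderOf x = D := by
    intro x hx
    by_contra h
    apply hx
    apply B0_PF_supp
    intro y hy
    by_contra h'
    exact h (hy ▸ hsupp y h')
  have hPz : ∀ z : (ZMod D)ˣ, PF u F (emb D m (z : ZMod D)) =
      orb (Gam D 7) (ZMod.unitsMap hD u) (z * x₀⁻¹) := hP
  obtain ⟨g, ν, hν1, hν2, -, hν4, hν5, -⟩ := move1 m D e 7 hD he (by norm_num)
    (fun z => orb (Gam D 7) (ZMod.unitsMap hD u) (z * x₀⁻¹)) (by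
      intro w hw z
      show orb (Gam D 7) (ZMod.unitsMap hD u) (w * z * x₀⁻¹) = _
      rw [mul_assoc, F7_orb_mul _ _ _ _ hw]) (by
      intro z
      show orb (Gam D 7) (ZMod.unitsMap hD u) (-z * x₀⁻¹) = _
      rw [neg_mul, F7_orb_neg])
  have hR : ∀ x, PF u F x - anti g x = ext e m (Rop 7 e ν) x := by
    intro x
    rw [hν4]
    by_cases hx : addOrderOf x = D
    · obtain ⟨z, rfl⟩ := exists_emb x hx
      rw [ext_emb hD, hPz]; ring
    · have h0 : PF u F x = 0 := by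
        by_contra h
        exact hx (hPsupp x h)
      rw [h0, ext_of_order_ne hD _ _ hx]; ring
  have hRT : TateF (ext e m (Rop 7 e ν)) := by
    have h := B0_sub _ _ hPT hν5
    have h' : (fun x => PF u F x - anti g x) = ext e m (Rop 7 e ν) := funext hR
    rwa [h'] at h
  have hRodd : ∀ x, ext e m (Rop 7 e ν) (-x) = - ext e m (Rop 7 e ν) x := by
    intro x
    rw [← hR, ← hR, hPodd, anti_odd]; ring
  -- the list of primes
  set L : List ℕ := (e.primeFactors.erase 3).toList with hL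
  have hLmem : ∀ p, p ∈ L ↔ p ≠ 3 ∧ p ∈ e.primeFactors := by
    intro p
    rw [hL, Finset.mem_toList, Finset.mem_erase]
  have hLnd : L.Nodup := Finset.nodup_toList _
  have h6 := mdiff m (ext e m (Rop 7 e ν)) hRodd hRT e hem (fun x _ hx =>
    ext_of_order_ne hem _ _ hx) (3 :: L) (by
      intro q hq
      by_cases hq3 : q = 3
      · rw [hq3]; exact List.mem_cons_self
      · exact List.mem_cons_of_mem _ ((hLmem q).2 ⟨hq3, hq⟩))
  have h7' : (fun z : (ZMod e)ˣ => ext e m (Rop 7 e ν) (emb e m (z : ZMod e))) = Rop 7 e ν := by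
    funext z
    exact ext_emb hem _ z
  rw [h7'] at h6
  -- formula for `ν`
  set z0 : (ZMod e)ˣ := ZMod.unitsMap heD x₀ with hz0
  have hν : ∀ w : (ZMod e)ˣ, ν (w * z0) =
      F7_d w - F7_d (ue * w) - F7_d (-w) + F7_d (-(ue * w)) := by
    intro w
    obtain ⟨z, hz⟩ := ZMod.unitsMap_surjective heD (w * z0)
    rw [← hz, ← hν1 z]
    show orb (Gam D 7) (ZMod.unitsMap hD u) (z * x₀⁻¹) = _
    rw [F7_nu h7]
    have e1 : ZMod.unitsMap (Nat.div_dvd_of_dvd h7) z *
        (ZMod.unitsMap (Nat.div_dvd_of_dvd h7) x₀)⁻¹ = w := by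
      show ZMod.unitsMap heD z * (ZMod.unitsMap heD x₀)⁻¹ = w
      rw [hz, hz0, mul_inv_cancel_right]
    have e2 : ZMod.unitsMap (Nat.div_dvd_of_dvd h7) (ZMod.unitsMap hD u) = ue := hueD
    rw [e1, e2]
  have hνanti : ∀ y, ν (ue * y) = - ν y := by
    intro y
    obtain ⟨w, rfl⟩ : ∃ w, y = w * z0 := ⟨y * z0⁻¹, by rw [inv_mul_cancel_right]⟩
    rw [← mul_assoc, hν, hν, ← mul_assoc, hueue, one_mul]
    ring
  have hM := B0_mdv_anti (Gam e) 3 L _ h6 ue hue3 (F5_rop_anti 7 e ν ue hνanti)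
  have hcop : Nat.Coprime 7 e := (Nat.Prime.coprime_iff_not_dvd (by norm_num)).2 h7e
  set s7 : (ZMod e)ˣ := ZMod.unitOfCoprime 7 hcop with hs7
  have hrop : ∀ w : (ZMod e)ˣ, Rop 7 e ν (w * z0) =
      (F7_d w - F7_d (ue * w) - F7_d (-w) + F7_d (-(ue * w))) -
      (F7_d (s7 * w) - F7_d (ue * (s7 * w)) - F7_d (-(s7 * w)) + F7_d (-(ue * (s7 * w)))) := by
    intro w
    rw [F5_rop 7 e ν hcop, hν, ← mul_assoc, ← hs7, hν]
  -- reduction modulo 3
  set c3 := ZMod.unitsMap h3e with hc3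
  have hc3ue : c3 ue ≠ 1 := by
    intro h
    exact hue1 (F7_crt h3e h9e ue h ((F7_mem h3e ue).1 hue3))
  have hc3neg : ∀ w : (ZMod e)ˣ, c3 w = 1 → c3 (-w) ≠ 1 := by
    intro w hw h
    have h10 : c3 (-w) = - c3 w := by
      apply Units.ext
      rw [hc3]
      simp [ZMod.unitsMap_def]
    rw [h10, hw] at h
    exact absurd h (by decide)
  have hc3s : c3 s7 = 1 := by
    apply Units.ext
    rw [hc3, hs7]
    simp only [ZMod.unitsMap_def, Units.coe_map, MonoidHom.coe_coe, ZMod.coe_unitOfCoprime,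
      Units.val_one]
    rw [map_natCast]
    decide
  have hPl3 : ∀ w ∈ Pl (Gam e) L, c3 w = 1 := by
    intro w hw
    have h10 := Pl_Gam_cast e 3 h3e L (by
      intro p hp
      obtain ⟨hp3, hpe⟩ := (hLmem p).1 hp
      have hpd := Nat.dvd_of_mem_primeFactors hpe
      have hpp := Nat.prime_of_mem_primeFactors hpe
      refine ⟨hpd, ?_⟩
      obtain ⟨k, hk⟩ := hpd
      rw [hk, Nat.mul_div_cancel_left _ hpp.pos]
      have h11 : 3 ∣ p * k := hk ▸ h3e
      rcases (Nat.Prime.dvd_mul Nat.prime_three).1 h11 with h | h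
      · exact absurd ((Nat.prime_dvd_prime_iff_eq Nat.prime_three hpp).1 h).symm hp3
      · exact h) w hw
    apply Units.ext
    rw [hc3, Units.val_one, ← h10]
    rfl
  have hred : ∀ w ∈ Pl (Gam e) L, Rop 7 e ν (w * z0) =
      (F7_d w + F7_d (-(ue * w))) - (F7_d (s7 * w) + F7_d (-(ue * (s7 * w)))) := by
    intro w hw
    have hw3 := hPl3 w hw
    have hsw3 : c3 (s7 * w) = 1 := by rw [map_mul, hc3s, hw3, one_mul]
    have n1 : ∀ w, c3 w = 1 → F7_d (ue * w) = 0 := by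
      intro w hw
      apply F7_d_ne
      intro h
      apply hc3ue
      have := congrArg c3 h
      rwa [map_mul, hw, mul_one, map_one] at this
    have n2 : ∀ w, c3 w = 1 → F7_d (-w) = 0 := by
      intro w hw
      apply F7_d_ne
      intro h
      apply hc3neg w hw
      rw [h, map_one]
    rw [hrop, n1 w hw3, n2 w hw3, n1 _ hsw3, n2 _ hsw3]
    ring
  -- the value at `z0`
  have hmod : ∀ (r : ℕ) (hr : r ∣ e) (a b : (ZMod e)ˣ), a = b →
      ZMod.castHom hr (ZMod r) (a : ZMod e) = ZMod.castHom hr (ZMod r) (b : ZMod e) := by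
    rintro r hr a b rfl
    rfl
  have hd1 : F7_d (s7 * 1) = 0 := by
    apply F7_d_ne
    intro h
    rw [mul_one] at h
    have h10 : ((7 : ℕ) : ZMod e) = ((1 : ℕ) : ZMod e) := by
      have := congrArg Units.val h
      rw [hs7, ZMod.coe_unitOfCoprime] at this
      simpa using this
    rw [ZMod.natCast_eq_natCast_iff] at h10
    have h11 : e ∣ 7 - 1 := (Nat.modEq_iff_dvd' (by norm_num)).1 h10.symm
    norm_num at h11
    have h12 := Nat.le_of_dvd (by norm_num) h11
    interval_cases e <;> first | omega | (exact absurd rfl he3) | (exact absurd hodde (by decide)) | (exact absurd h3e (by norm_num))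
  have hd2 : F7_d (-(ue * (s7 * 1))) = 0 := by
    apply F7_d_ne
    intro h
    rw [mul_one] at h
    have hk3 : e / 3 ∣ e := Nat.div_dvd_of_dvd h3e
    have h10 := congrArg (ZMod.unitsMap hk3) h
    have h11 : ZMod.unitsMap hk3 (-(ue * s7)) = - (ZMod.unitsMap hk3 ue * ZMod.unitsMap hk3 s7) := by
      rw [← map_mul]
      apply Units.ext
      simp [ZMod.unitsMap_def]
    rw [h11, (F7_mem h3e ue).1 hue3, one_mul, map_one] at h10
    have h17 : ((ZMod.unitsMap hk3 s7 : (ZMod (e / 3))ˣ) : ZMod (e / 3)) =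
        ((7 : ℕ) : ZMod (e / 3)) := by
      rw [hs7]
      simp only [ZMod.unitsMap_def, Units.coe_map, MonoidHom.coe_coe, ZMod.coe_unitOfCoprime]
      rw [map_natCast]
    have h12 : -((7 : ℕ) : ZMod (e / 3)) = 1 := by
      have := congrArg Units.val h10
      rw [Units.val_neg, h17, Units.val_one] at this
      exact this
    have h13 : ((8 : ℕ) : ZMod (e / 3)) = 0 := by
      have h14 : (1 : ZMod (e / 3)) + ((7 : ℕ) : ZMod (e / 3)) = 0 := by
        rw [← h12]; ring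
      have h15 : ((8 : ℕ) : ZMod (e / 3)) = 1 + ((7 : ℕ) : ZMod (e / 3)) := by
        push_cast; norm_num
      rw [h15, h14]
    rw [ZMod.natCast_eq_zero_iff] at h13
    have h14 : Odd (e / 3) := hodde.of_dvd_nat hk3
    have h15 : e / 3 ≤ 8 := Nat.le_of_dvd (by norm_num) h13
    have h16 : e = 3 * (e / 3) := (Nat.mul_div_cancel' h3e).symm
    generalize e / 3 = k at h13 h14 h15 h16
    interval_cases k <;> first | omega | (exact absurd h14 (by decide)) | (exact absurd h13 (by norm_num))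
  have hz0v : 1 ≤ Rop 7 e ν (1 * z0) := by
    rw [hred 1 (Pl (Gam e) L).one_mem, hd1, hd2, F7_d_one rfl]
    have := F7_d_nonneg (-(ue * (1 : (ZMod e)ˣ)))
    omega
  -- cardinalities of the subgroups
  have hLp : ∀ p ∈ L, p.Prime ∧ p ∣ e ∧ 5 ≤ p := by
    intro p hp
    obtain ⟨hp3, hpe⟩ := (hLmem p).1 hp
    have hpd := Nat.dvd_of_mem_primeFactors hpe
    have hpp := Nat.prime_of_mem_primeFactors hpe
    refine ⟨hpp, hpd, ?_⟩
    have hpo : Odd p := hodde.of_dvd_nat hpd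
    have := hpp.two_le
    by_contra hlt
    push Not at hlt
    interval_cases p
    · exact absurd hpo (by decide)
    · exact hp3 rfl
    · exact absurd hpp (by norm_num)
  have h4 : ∀ p ∈ L, 4 ≤ Nat.card (Gam e p) := by
    intro p hp
    obtain ⟨hpp, hpd, hp5⟩ := hLp p hp
    rw [card_Gam e p hpp hpd]
    split_ifs <;> omega
  have h5 : ∀ p ∈ L, ∀ p' ∈ L, p ≠ p' → Nat.card (Gam e p) = 4 → 5 ≤ Nat.card (Gam e p') := by
    intro p hp p' hp' hne hc
    obtain ⟨hpp, hpd, hp5⟩ := hLp p hp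
    obtain ⟨hpp', hpd', hp5'⟩ := hLp p' hp'
    rw [card_Gam e p hpp hpd] at hc
    rw [card_Gam e p' hpp' hpd']
    have hp55 : p = 5 := by
      split_ifs at hc <;> omega
    have hp6 : p' ≠ 6 := fun h => by rw [h] at hpp'; exact absurd hpp' (by norm_num)
    split_ifs <;> omega
  -- points of the support
  have hsol : ∀ w : (ZMod e)ˣ, F7_d w ≠ 0 → w = 1 := by
    intro w h
    by_contra h'
    exact h (F7_d_ne h')
  have hsol2 : ∀ a w : (ZMod e)ˣ, F7_d (-(a * w)) ≠ 0 → w = (-a)⁻¹ := by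
    intro a w h
    have h10 := hsol _ h
    rw [← neg_mul] at h10
    exact eq_inv_of_mul_eq_one_right h10
  -- the size of the support
  have hSl : Sl (Gam e) L (Rop 7 e ν) (1 * z0) ≤ 6 := by
    set T : Finset (ZMod e)ˣ := {1, (-ue)⁻¹, s7⁻¹, (-(ue * s7))⁻¹} with hTdef
    have hfin : T.card ≤ 4 := Finset.card_le_four
    have hTc : Nat.card {w // w ∈ T} = T.card := by
      rw [Nat.card_eq_fintype_card, Fintype.card_coe]
    refine le_trans ?_ ((hTc.le.trans hfin).trans (by norm_num))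
    unfold Sl
    refine Nat.card_le_card_of_injective
      (fun y : {y : (ZMod e)ˣ // y * (1 * z0)⁻¹ ∈ Pl (Gam e) L ∧ Rop 7 e ν y ≠ 0} =>
        (⟨y.1 * (1 * z0)⁻¹, ?_⟩ : {w // w ∈ T})) ?_
    · obtain ⟨y, hy1, hy2⟩ := y
      have h10 := hred _ hy1
      have h11 : y * (1 * z0)⁻¹ * z0 = y := by rw [one_mul, inv_mul_cancel_right]
      rw [h11] at h10
      show y * (1 * z0)⁻¹ ∈ T
      generalize y * (1 * z0)⁻¹ = w at h10
      rw [hTdef]
      simp only [Finset.mem_insert, Finset.mem_singleton]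
      by_contra hcon
      push Not at hcon
      obtain ⟨c1, c2, c3', c4⟩ := hcon
      apply hy2
      have d1 : F7_d w = 0 := F7_d_ne c1
      have d2 : F7_d (-(ue * w)) = 0 := by
        by_contra h
        exact c2 (hsol2 ue w h)
      have d3 : F7_d (s7 * w) = 0 := by
        apply F7_d_ne
        intro h
        exact c3' (eq_inv_of_mul_eq_one_right h)
      have d4 : F7_d (-(ue * (s7 * w))) = 0 := by
        by_contra h
        rw [← mul_assoc] at h
        exact c4 (hsol2 _ w h)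
      rw [h10, d1, d2, d3, d4]
      rfl
    · intro y z hyz
      have h10 : y.1 * (1 * z0)⁻¹ = z.1 * (1 * z0)⁻¹ := congrArg Subtype.val hyz
      exact Subtype.ext (mul_right_cancel h10)
  obtain ⟨i, hi, -, hw⟩ := single_coset (Gam e) L hLnd (indep_Gam e L hLnd fun p hp =>
    ((hLmem p).1 hp).2) h4 h5 _ hM (1 * z0) (by omega) hSl
  have hle := K3_le_Pl (Gam e) L i hi
  have hcard : Nat.card (Gam e i) ≤ 2 := by
    set T : Finset (ZMod e)ˣ := {1, (-ue)⁻¹} with hTdef
    have hfin : T.card ≤ 2 := Finset.card_le_two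
    have hTc : Nat.card {w // w ∈ T} = T.card := by
      rw [Nat.card_eq_fintype_card, Fintype.card_coe]
    refine le_trans ?_ (hTc.le.trans hfin)
    refine Nat.card_le_card_of_injective
      (fun w : Gam e i => (⟨w.1, ?_⟩ : {w // w ∈ T})) ?_
    · obtain ⟨w, hwi⟩ := w
      have h10 := (hw w (hle hwi)).1 hwi
      rw [one_mul, hred w (hle hwi)] at h10
      rw [one_mul] at hz0v
      show w ∈ T
      rw [hTdef, Finset.mem_insert, Finset.mem_singleton]
      by_contra hcon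
      push Not at hcon
      have d1 : F7_d w = 0 := F7_d_ne hcon.1
      have d2 : F7_d (-(ue * w)) = 0 := by
        by_contra h
        exact hcon.2 (hsol2 ue w h)
      have d3 := F7_d_nonneg (s7 * w)
      have d4 := F7_d_nonneg (-(ue * (s7 * w)))
      omega
    · intro y z hyz
      have h10 : y.1 = z.1 := congrArg (fun t : {w // w ∈ T} => t.1) hyz
      exact Subtype.ext h10
  have := h4 i hi
  omega

end Pool.Agent.helper88.OF
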